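import Pool.Agent.R570.XorMain

/-!
# A non-computable `μ`-limit language for a computable `μ` under the XOR cellular automaton

`F(x)_i = x_i + x_{i+1}` on `{0,1}^ℤ`, written with `Bool` (`true = 1`).
-/

namespace Pool.Agent.Results.MP_02be1f_lc.LimitLanguage

open MeasureTheory Filter Topology Pool.R570.XorCA

/-- Answer to Q2 (affirmative): there is a computable shift-invariant probability measure `μ` on
`{0,1}^ℤ` whose `μ`-limit language `{w | (F^n μ)([w]) does not tend to 0}` is undecidable. -/
theorem result :
    ∃ μ : Measure (ℤ → Bool), IsProbabilityMeasure μ ∧ μ.map shift = μ ∧ ComputableMeasure μ ∧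
      ¬ ComputablePred (fun w : List Bool => w ∈ limitLanguage μ) :=
  ⟨mu, M_prob _ _, mu_shift, mu_computable, limitLanguage_noncomputable⟩

end Pool.Agent.Results.MP_02be1f_lc.LimitLanguage
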