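import Pool.Agent.R570.XorMain

/-!
# A non-computable limit point of `(F^n μ)` for a computable `μ` under the XOR cellular automaton

`F(x)_i = x_i + x_{i+1}` on `{0,1}^ℤ`, written with `Bool` (`true = 1`).
-/

namespace Pool.Agent.Results.MP_02be1f_lc.LimitPoint

open MeasureTheory Filter Topology Pool.R570.XorCA

/-- Answer to Q1 (affirmative): there is a computable shift-invariant probability measure `μ` on
`{0,1}^ℤ` such that `(F^n μ)` has a limit point (a probability measure `ν` to which a subsequence
converges on every cylinder) that is not computable. -/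
theorem result :
    ∃ μ : Measure (ℤ → Bool), IsProbabilityMeasure μ ∧ μ.map shift = μ ∧ ComputableMeasure μ ∧
      ∃ ν : Measure (ℤ → Bool), IsProbabilityMeasure ν ∧ IsLimitPoint μ ν ∧
        ¬ ComputableMeasure ν :=
  ⟨mu, M_prob _ _, mu_shift, mu_computable, exists_limitPoint⟩

end Pool.Agent.Results.MP_02be1f_lc.LimitPoint
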